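import Pool.Agent.N710.LD.Win

/-!
# Averages over windows
-/

set_option autoImplicit false

namespace Pool.Agent.N710.LD

open Finset Filter Topology
open Pool.Agent.R485.TransS

/-- the bad windows -/
def BW (𝓑 : Finset ℕ) (u L : ℕ → ℕ) (ε z : ℝ) : Set ℕ :=
  {n | ¬ ∀ b ∈ 𝓑, WDis b (u n) (L n) (ε * L n) z}

lemma BW_mono (𝓑 : Finset ℕ) (u L : ℕ → ℕ) {ε ε' : ℝ} (h : ε ≤ ε') (z : ℝ) :
    BW 𝓑 u L ε' z ⊆ BW 𝓑 u L ε z := by
  intro n hn hb
  exact hn fun b hbb => (hb b hbb).mono (mul_le_mul_of_nonneg_right h (Nat.cast_nonneg _))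

lemma BW_add_int (𝓑 : Finset ℕ) (u L : ℕ → ℕ) (ε z : ℝ) (j : ℤ) :
    BW 𝓑 u L ε (z + j) = BW 𝓑 u L ε z := by
  ext n
  simp only [BW, Set.mem_ofPred_eq, wdis_add_int]

/-- the weight of a set -/
noncomputable def mass (w : ℕ → ℝ) (B : Set ℕ) : ℝ := ∑' n, B.indicator w n

lemma mass_nonneg {w : ℕ → ℝ} (h0 : ∀ n, 0 ≤ w n) (B : Set ℕ) : 0 ≤ mass w B :=
  tsum_nonneg fun n => Set.indicator_nonneg (fun n _ => h0 n) n

lemma mass_mono {w : ℕ → ℝ} (h0 : ∀ n, 0 ≤ w n) (h1 : HasSum w 1) {B B' : Set ℕ} (h : B ⊆ B') :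
    mass w B ≤ mass w B' :=
  (h1.summable.indicator B).tsum_le_tsum
    (fun n => Set.indicator_le_indicator_of_subset h h0 n) (h1.summable.indicator B')

lemma mass_le_one {w : ℕ → ℝ} (h0 : ∀ n, 0 ≤ w n) (h1 : HasSum w 1) (B : Set ℕ) :
    mass w B ≤ 1 := by
  rw [← h1.tsum_eq]
  exact (h1.summable.indicator B).tsum_le_tsum
    (fun n => Set.indicator_le_self' (fun _ _ => h0 _) n) h1.summable

/-- double counting -/
lemma sum_mass {ι : Type*} (T : Finset ι) (B : ι → Set ℕ) (w : ℕ → ℝ) (h0 : ∀ n, 0 ≤ w n)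
    (h1 : HasSum w 1) (K : ℝ) (hK : 0 ≤ K) (F : Finset ℕ)
    (hF : ∀ n, n ∉ F → ∀ T' : Finset ι, T' ⊆ T → (∀ r ∈ T', n ∈ B r) → (T'.card : ℝ) ≤ K) :
    ∑ r ∈ T, mass w (B r) ≤ K + T.card * ∑ n ∈ F, w n := by
  classical
  have hs : ∀ r ∈ T, Summable fun n => (B r).indicator w n := fun r _ => h1.summable.indicator _
  unfold mass
  rw [← Summable.tsum_finsetSum hs]
  have hF1 : HasSum (fun n => if n ∈ F then w n else 0) (∑ n ∈ F, w n) := by
    have h := hasSum_sum_of_ne_finset_zero (L := SummationFilter.unconditional ℕ)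
      (f := fun n => if n ∈ F then w n else 0) (s := F) (fun b hb => if_neg hb)
    rwa [Finset.sum_congr rfl fun n hn => if_pos hn] at h
  have h2 : HasSum (fun n => K * w n + T.card * (if n ∈ F then w n else 0))
      (K * 1 + T.card * ∑ n ∈ F, w n) := (h1.mul_left K).add (hF1.mul_left _)
  rw [mul_one] at h2
  rw [← h2.tsum_eq]
  refine Summable.tsum_le_tsum (fun n => ?_) (summable_sum hs) h2.summable
  have h3 : ∑ r ∈ T, (B r).indicator w n = ((T.filter fun r => n ∈ B r).card : ℝ) * w n := by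
    rw [← nsmul_eq_mul, ← sum_const, sum_filter]
    exact sum_congr rfl fun r _ => by rw [Set.indicator_apply]
  rw [h3]
  by_cases hn : n ∈ F
  · rw [if_pos hn]
    have h4 : ((T.filter fun r => n ∈ B r).card : ℝ) ≤ T.card := by
      exact_mod_cast card_filter_le _ _
    have := h0 n
    have h5 := mul_le_mul_of_nonneg_right h4 this
    have h6 := mul_nonneg hK this
    linarith
  · rw [if_neg hn, mul_zero, add_zero]
    exact mul_le_mul_of_nonneg_right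
      (hF n hn _ (filter_subset _ _) fun r hr => (mem_filter.1 hr).2) (h0 n)

/-- **averages over windows** -/
theorem main (S 𝓑 : Finset ℕ) (hS : ∀ q ∈ S, q.Prime) (h𝓑 : ∀ b ∈ 𝓑, 2 ≤ b ∧ ∀ q ∈ S, ¬ q ∣ b) :
    ∃ C : ℝ, ∀ (u L : ℕ → ℕ) (w : ℕ → ℕ → ℝ), Tendsto L atTop atTop → (∀ t n, 0 ≤ w t n) →
      (∀ t, HasSum (w t) 1) → (∀ n, Tendsto (fun t => w t n) atTop (𝓝 0)) →
      ∀ X : Set ℝ, X.Countable → ∃ φ : ℕ → ℕ, StrictMono φ ∧ ∀ x ∈ X, ∀ ε δ : ℝ, 0 < ε → ε ≤ 1 →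
        0 < δ → ∃ E : Finset ℚ, (E.card : ℝ) ≤ C * ((1 + Real.log (1 / ε)) / ε) ^ 2 / δ ∧
          ∀ r : ℚ, r.den ∈ Nat.factoredNumbers S → Int.fract r ∉ E →
            ∀ᶠ j in atTop, mass (w (φ j)) (BW 𝓑 u L ε (x + r)) < δ := by
  classical
  obtain ⟨C, hC0, hC⟩ := count_classes S 𝓑 hS h𝓑
  refine ⟨81 * C, fun u L w hL hw0 hw1 hw2 X hX => ?_⟩
  have : Countable X := hX.to_subtype
  set U : Ultrafilter ℕ := Ultrafilter.of atTop with hUdef
  have hU : (U : Filter ℕ) ≤ atTop := Ultrafilter.of_le atTop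
  set g : X × ℕ × ℚ → ℕ → ℝ := fun p t =>
    mass (w t) (BW 𝓑 u L (1 / ((p.2.1 : ℝ) + 1)) (p.1 + p.2.2)) with hg
  have hlim : ∀ p, ∃ l : ℝ, Tendsto (g p) U (𝓝 l) := by
    intro p
    have h1 : (U.map (g p) : Filter ℝ) ≤ 𝓟 (Set.Icc 0 1) := by
      rw [le_principal_iff]
      exact Filter.mem_map.2 (Filter.univ_mem' fun t =>
        ⟨mass_nonneg (hw0 t) _, mass_le_one (hw0 t) (hw1 t) _⟩)
    obtain ⟨l, _, hl⟩ := isCompact_Icc.ultrafilter_le_nhds (U.map (g p)) h1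
    exact ⟨l, hl⟩
  choose l hl using hlim
  -- the number of classes with a large limit
  have hcard : ∀ (x : X) (i : ℕ) (δ : ℝ), 0 < δ → ∀ T : Finset ℚ,
      (∀ r ∈ T, (0 ≤ r ∧ r < 1 ∧ r.den ∈ Nat.factoredNumbers S) ∧ δ ≤ l (x, i, r)) →
        (T.card : ℝ) ≤ C * ((1 + Real.log (i + 1)) * (i + 1)) ^ 2 / δ := by
    intro x i δ hδ T hT
    have hi : (0 : ℝ) < (i : ℝ) + 1 := by positivity
    set K : ℝ := C * ((1 + Real.log (i + 1)) * (i + 1)) ^ 2 with hK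
    have hK0 : 0 ≤ K := by positivity
    obtain ⟨N₀, hN₀⟩ := hC T fun r hr => (hT r hr).1
    obtain ⟨n₀, hn₀⟩ := eventually_atTop.1 (hL.eventually_ge_atTop N₀)
    have h1 : ∀ t, ∑ r ∈ T, g (x, i, r) t ≤ K + T.card * ∑ n ∈ range n₀, w t n := by
      intro t
      refine sum_mass T (fun r : ℚ => BW 𝓑 u L (1 / ((i : ℝ) + 1)) (x + r)) (w t) (hw0 t) (hw1 t) K
        hK0 (range n₀) fun n hn T' hT' hb => ?_
      rw [mem_range, not_lt] at hn
      have h4 := hN₀ (L n) (hn₀ n hn) (u n) x (1 / ((i : ℝ) + 1)) (by positivity) (by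
        rw [div_le_one hi]
        have : (0 : ℝ) ≤ i := Nat.cast_nonneg i
        linarith) T' hT' hb
      refine h4.trans (le_of_eq ?_)
      rw [one_div_one_div, div_div_eq_mul_div, div_one]
    have h2 : Tendsto (fun t => K + T.card * ∑ n ∈ range n₀, w t n) U
        (𝓝 (K + T.card * ∑ n ∈ range n₀, 0)) :=
      (tendsto_const_nhds.add (tendsto_const_nhds.mul
        (tendsto_finsetSum _ fun n _ => hw2 n))).mono_left hU
    have h3 : Tendsto (fun t => ∑ r ∈ T, g (x, i, r) t) U (𝓝 (∑ r ∈ T, l (x, i, r))) :=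
      tendsto_finsetSum _ fun r _ => hl _
    have h4 := le_of_tendsto_of_tendsto' h3 h2 h1
    rw [sum_const_zero, mul_zero, add_zero] at h4
    have h5 : (T.card : ℝ) * δ ≤ ∑ r ∈ T, l (x, i, r) := by
      rw [← nsmul_eq_mul]
      exact card_nsmul_le_sum _ _ _ fun r hr => (hT r hr).2
    rw [le_div_iff₀ hδ]
    linarith
  have hfin : ∀ (x : X) (i : ℕ) (δ : ℝ), 0 < δ →
      {r : ℚ | (0 ≤ r ∧ r < 1 ∧ r.den ∈ Nat.factoredNumbers S) ∧ δ ≤ l (x, i, r)}.Finite := by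
    intro x i δ hδ
    by_contra hinf
    obtain ⟨n, hn⟩ := exists_nat_gt (C * ((1 + Real.log (i + 1)) * (i + 1)) ^ 2 / δ)
    obtain ⟨T, hT, hTn⟩ := Set.Infinite.exists_subset_card_eq hinf n
    have := hcard x i δ hδ T fun r hr => hT hr
    rw [hTn] at this
    linarith
  set f : Filter ℕ := atTop ⊓ ⨅ p : X × ℕ × ℚ, comap (g p) (𝓝 (l p)) with hf
  have hUf : (U : Filter ℕ) ≤ f := le_inf hU (le_iInf fun p => tendsto_iff_comap.1 (hl p))
  have hfne : NeBot f := U.neBot.mono hUf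
  obtain ⟨v, hv⟩ := exists_seq_tendsto f
  have hv1 : Tendsto v atTop atTop := hv.mono_right inf_le_left
  obtain ⟨ψ, hψ, hψ2⟩ := strictMono_subseq_of_tendsto_atTop hv1
  have hv2 : Tendsto (v ∘ ψ) atTop f := hv.comp hψ.tendsto_atTop
  refine ⟨v ∘ ψ, hψ2, ?_⟩
  intro x hx ε δ hε hε1 hδ
  set i : ℕ := ⌈1 / ε⌉₊ with hi
  have hi1 : 1 / ε ≤ i := Nat.le_ceil _
  have hi2 : (i : ℝ) + 1 ≤ 3 / ε := by
    have h1 : (i : ℝ) < 1 / ε + 1 := Nat.ceil_lt_add_one (by positivity)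
    have h2 : (1 : ℝ) ≤ 1 / ε := by rw [le_div_iff₀ hε]; linarith
    have h3 : 3 / ε = 1 / ε + 1 / ε + 1 / ε := by ring
    linarith
  have hfinx := hfin ⟨x, hx⟩ i δ hδ
  refine ⟨hfinx.toFinset, ?_, ?_⟩
  · refine (hcard ⟨x, hx⟩ i δ hδ hfinx.toFinset (by simp)).trans ?_
    apply div_le_div_of_nonneg_right _ hδ.le
    have hlogε : 0 ≤ Real.log (1 / ε) := Real.log_nonneg (by rw [le_div_iff₀ hε]; linarith)
    have h1 : Real.log (i + 1) ≤ 2 + Real.log (1 / ε) := by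
      have h2 : Real.log (i + 1) ≤ Real.log (3 / ε) := Real.log_le_log (by positivity) hi2
      have h3 : (3 : ℝ) / ε = 3 * (1 / ε) := by ring
      rw [h3, Real.log_mul (by norm_num) (by positivity)] at h2
      have h4 : Real.log 3 ≤ 2 := by
        have h5 : Real.log 3 ≤ Real.log (2 ^ 2) := Real.log_le_log (by norm_num) (by norm_num)
        rw [Real.log_pow] at h5
        have := Real.log_two_lt_d9
        push_cast at h5
        linarith
      linarith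
    have h0 : 0 ≤ Real.log ((i : ℝ) + 1) := Real.log_nonneg (by
      have : (0 : ℝ) ≤ i := Nat.cast_nonneg i
      linarith)
    have h6 : (1 + Real.log (i + 1)) * (i + 1) ≤ 9 * ((1 + Real.log (1 / ε)) / ε) := by
      calc (1 + Real.log (i + 1)) * ((i : ℝ) + 1) ≤ (3 * (1 + Real.log (1 / ε))) * (3 / ε) := by
            apply mul_le_mul (by linarith) hi2 (by positivity) (by linarith)
        _ = _ := by ring
    have h7 := pow_le_pow_left₀ (by positivity) h6 2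
    calc C * ((1 + Real.log (i + 1)) * (i + 1)) ^ 2 ≤ C * (9 * ((1 + Real.log (1 / ε)) / ε)) ^ 2 :=
          mul_le_mul_of_nonneg_left h7 hC0
      _ = _ := by ring
  · intro r hr hrE
    have h1 : l (⟨x, hx⟩, i, Int.fract r) < δ := by
      by_contra hcon
      exact hrE (hfinx.mem_toFinset.2 ⟨⟨Int.fract_nonneg r, Int.fract_lt_one r, by
        rw [Rat.den_intFract]; exact hr⟩, not_lt.1 hcon⟩)
    have h2 : Tendsto (fun j => g (⟨x, hx⟩, i, Int.fract r) ((v ∘ ψ) j)) atTop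
        (𝓝 (l (⟨x, hx⟩, i, Int.fract r))) := by
      have h4 : Tendsto (v ∘ ψ) atTop (comap (g (⟨x, hx⟩, i, Int.fract r))
          (𝓝 (l (⟨x, hx⟩, i, Int.fract r)))) := hv2.mono_right (inf_le_right.trans (iInf_le _ _))
      exact tendsto_comap_iff.1 h4
    filter_upwards [h2.eventually_lt_const h1] with j hj
    refine lt_of_le_of_lt ?_ hj
    have h6 : x + (r : ℝ) = x + ((Int.fract r : ℚ) : ℝ) + ((⌊r⌋ : ℤ) : ℝ) := by
      have h7 : ((Int.fract r : ℚ) : ℝ) + ((⌊r⌋ : ℤ) : ℝ) = r := by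
        exact_mod_cast congrArg (fun z : ℚ => (z : ℝ)) (Int.fract_add_floor r)
      linarith
    rw [h6, BW_add_int]
    apply mass_mono (hw0 _) (hw1 _)
    apply BW_mono
    rw [div_le_iff₀ (by positivity)]
    rw [div_le_iff₀ hε] at hi1
    nlinarith

/-- **every scale, all real numbers**: the number of classes with many bad windows is bounded -/
theorem unif (S 𝓑 : Finset ℕ) (hS : ∀ q ∈ S, q.Prime) (h𝓑 : ∀ b ∈ 𝓑, 2 ≤ b ∧ ∀ q ∈ S, ¬ q ∣ b) :
    ∃ C : ℝ, ∀ (u L : ℕ → ℕ) (w : ℕ → ℕ → ℝ), Tendsto L atTop atTop → (∀ t n, 0 ≤ w t n) →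
      (∀ t, HasSum (w t) 1) → (∀ n, Tendsto (fun t => w t n) atTop (𝓝 0)) →
      ∀ T : Finset ℚ, (∀ r ∈ T, 0 ≤ r ∧ r < 1 ∧ r.den ∈ Nat.factoredNumbers S) →
        ∀ᶠ t in atTop, ∀ x ε δ : ℝ, 0 < ε → ε ≤ 1 → 0 < δ → ∀ T' : Finset ℚ, T' ⊆ T →
          (∀ r ∈ T', δ ≤ mass (w t) (BW 𝓑 u L ε (x + r))) →
            (T'.card : ℝ) ≤ C * ((1 + Real.log (1 / ε)) / ε) ^ 2 / δ := by
  classical
  obtain ⟨C, hC0, hC⟩ := count_classes S 𝓑 hS h𝓑
  refine ⟨C + 1, fun u L w hL hw0 hw1 hw2 T hT => ?_⟩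
  obtain ⟨N₀, hN₀⟩ := hC T hT
  obtain ⟨n₀, hn₀⟩ := eventually_atTop.1 (hL.eventually_ge_atTop N₀)
  have h2 : Tendsto (fun t => (T.card : ℝ) * ∑ n ∈ range n₀, w t n) atTop
      (𝓝 (T.card * ∑ n ∈ range n₀, 0)) :=
    tendsto_const_nhds.mul (tendsto_finsetSum _ fun n _ => hw2 n)
  rw [sum_const_zero, mul_zero] at h2
  filter_upwards [h2.eventually_lt_const one_pos] with t ht x ε δ hε hε1 hδ T' hT' hb
  have hlogε : 0 ≤ Real.log (1 / ε) := Real.log_nonneg (by rw [le_div_iff₀ hε]; linarith)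
  have hq : 1 ≤ (1 + Real.log (1 / ε)) / ε := by
    rw [le_div_iff₀ hε]
    linarith
  have hq2 : 1 ≤ ((1 + Real.log (1 / ε)) / ε) ^ 2 := one_le_pow₀ hq
  have h1 : ∑ r ∈ T', mass (w t) (BW 𝓑 u L ε (x + r)) ≤
      C * ((1 + Real.log (1 / ε)) / ε) ^ 2 + T'.card * ∑ n ∈ range n₀, w t n := by
    refine sum_mass T' (fun r : ℚ => BW 𝓑 u L ε (x + r)) (w t) (hw0 t) (hw1 t) _
      (by positivity) (range n₀) fun n hn T'' hT'' hb' => ?_
    rw [mem_range, not_lt] at hn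
    exact hN₀ (L n) (hn₀ n hn) (u n) x ε hε hε1 T'' (hT''.trans hT') hb'
  have h3 : (T'.card : ℝ) * ∑ n ∈ range n₀, w t n ≤ T.card * ∑ n ∈ range n₀, w t n := by
    apply mul_le_mul_of_nonneg_right _ (sum_nonneg fun n _ => hw0 t n)
    exact_mod_cast card_le_card hT'
  have h5 : (T'.card : ℝ) * δ ≤ ∑ r ∈ T', mass (w t) (BW 𝓑 u L ε (x + r)) := by
    rw [← nsmul_eq_mul]
    exact card_nsmul_le_sum _ _ _ hb
  rw [le_div_iff₀ hδ]
  nlinarith

/-- the logarithmic weights -/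
noncomputable def lw (t n : ℕ) : ℝ :=
  if n ∈ Icc 1 (t + 1) then (1 / (n : ℝ)) / ∑ k ∈ Icc 1 (t + 1), 1 / (k : ℝ) else 0

lemma harm_pos (t : ℕ) : 0 < ∑ k ∈ Icc 1 (t + 1), 1 / (k : ℝ) := by
  apply sum_pos
  · intro k hk
    rw [mem_Icc] at hk
    have : (0 : ℝ) < k := by exact_mod_cast hk.1
    positivity
  · exact ⟨1, by rw [mem_Icc]; omega⟩

lemma lw_nonneg (t n : ℕ) : 0 ≤ lw t n := by
  unfold lw
  have := harm_pos t
  split_ifs <;> positivity

lemma lw_hasSum (t : ℕ) (B : Set ℕ) [DecidablePred (· ∈ B)] :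
    mass (lw t) B = (∑ n ∈ (Icc 1 (t + 1)).filter (· ∈ B), 1 / (n : ℝ)) /
      ∑ k ∈ Icc 1 (t + 1), 1 / (k : ℝ) := by
  unfold mass
  rw [tsum_eq_sum (s := Icc 1 (t + 1))]
  · rw [sum_div, sum_filter]
    refine sum_congr rfl fun n hn => ?_
    rw [Set.indicator_apply]
    unfold lw
    rw [if_pos hn]
  · intro n hn
    rw [Set.indicator_apply]
    unfold lw
    rw [if_neg hn, ite_self]

lemma lw_one (t : ℕ) : HasSum (lw t) 1 := by
  have h := hasSum_sum_of_ne_finset_zero (L := SummationFilter.unconditional ℕ)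
      (f := lw t) (s := Icc 1 (t + 1)) (fun b hb => if_neg hb)
  have h1 : ∑ n ∈ Icc 1 (t + 1), lw t n = 1 := by
    have h2 : ∀ n ∈ Icc 1 (t + 1), lw t n = (1 / (n : ℝ)) / ∑ k ∈ Icc 1 (t + 1), 1 / (k : ℝ) :=
      fun n hn => if_pos hn
    rw [sum_congr rfl h2, ← sum_div]
    exact div_self (harm_pos t).ne'
  rwa [h1] at h

lemma harm_tendsto : Tendsto (fun t : ℕ => ∑ k ∈ Icc 1 (t + 1), 1 / (k : ℝ)) atTop atTop := by
  have h := Real.tendsto_sum_range_one_div_nat_succ_atTop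
  have h2 := h.comp (tendsto_add_atTop_nat 1)
  refine h2.congr fun t => ?_
  simp only [Function.comp]
  have h3 : Icc 1 (t + 1) = (range (t + 1)).image (fun k => k + 1) := by
    ext k
    simp only [mem_Icc, mem_image, mem_range]
    constructor
    · intro h
      exact ⟨k - 1, by omega, by omega⟩
    · rintro ⟨j, hj, rfl⟩
      omega
  rw [h3, sum_image (fun a _ b _ h => by simpa using h)]
  exact sum_congr rfl fun k _ => by push_cast; rfl

lemma lw_tendsto (n : ℕ) : Tendsto (fun t => lw t n) atTop (𝓝 0) := by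
  have h1 : Tendsto (fun t : ℕ => (1 / (n : ℝ)) / ∑ k ∈ Icc 1 (t + 1), 1 / (k : ℝ)) atTop (𝓝 0) :=
    harm_tendsto.const_div_atTop _
  refine squeeze_zero (fun t => lw_nonneg t n) (fun t => ?_) h1
  unfold lw
  split_ifs
  · exact le_rfl
  · have := harm_pos t
    positivity

end Pool.Agent.N710.LD
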