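import Pool.Agent.R485.TransS.Diag

/-!
# Windows: the number of bad translates is bounded in every long window
-/

set_option autoImplicit false

namespace Pool.Agent.N710.LD

open Finset Filter Topology
open Pool.Agent.R485.TransS

/-- discrepancy at the places `u < i ≤ u + N` -/
def WDis (b u N : ℕ) (E z : ℝ) : Prop :=
  ∀ n : ℕ, n ≤ N → ∀ α β : ℝ, 0 ≤ α → α < β → β ≤ 1 →
    |(((Finset.Ioc u (u + n)).filter (fun i : ℕ => α ≤ Int.fract (z * (b : ℝ) ^ i) ∧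
      Int.fract (z * (b : ℝ) ^ i) < β)).card : ℝ) - (β - α) * n| ≤ E

lemma wdis_iff (b u N : ℕ) (E z : ℝ) : WDis b u N E z ↔ Dis b N E (z * (b : ℝ) ^ u) := by
  have key : ∀ (n : ℕ) (α β : ℝ),
      ((Finset.Ioc u (u + n)).filter (fun i : ℕ => α ≤ Int.fract (z * (b : ℝ) ^ i) ∧
        Int.fract (z * (b : ℝ) ^ i) < β)).card =
      ((Finset.Icc 1 n).filter (fun i : ℕ => α ≤ Int.fract (z * (b : ℝ) ^ u * (b : ℝ) ^ i) ∧
        Int.fract (z * (b : ℝ) ^ u * (b : ℝ) ^ i) < β)).card := by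
    intro n α β
    symm
    apply Finset.card_bij (fun i _ => u + i)
    · intro i hi
      rw [mem_filter, mem_Icc] at hi
      rw [mem_filter, mem_Ioc, pow_add, ← mul_assoc]
      exact ⟨by omega, hi.2⟩
    · intro i _ j _ h
      omega
    · intro i hi
      rw [mem_filter, mem_Ioc] at hi
      refine ⟨i - u, ?_, by omega⟩
      rw [mem_filter, mem_Icc, mul_assoc, ← pow_add, show u + (i - u) = i by omega]
      exact ⟨by omega, hi.2⟩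
  constructor
  · intro h n hn α β h0 h1 h2
    rw [← key]
    exact h n hn α β h0 h1 h2
  · intro h n hn α β h0 h1 h2
    rw [key]
    exact h n hn α β h0 h1 h2

lemma WDis.mono {b u N : ℕ} {E E' z : ℝ} (h : WDis b u N E z) (hE : E ≤ E') : WDis b u N E' z :=
  fun n hn α β h0 h1 h2 => (h n hn α β h0 h1 h2).trans hE

lemma WDis.add_int {b u N : ℕ} {E z : ℝ} (h : WDis b u N E z) (j : ℤ) : WDis b u N E (z + j) := by
  rw [wdis_iff] at h ⊢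
  have : (z + j) * (b : ℝ) ^ u = z * (b : ℝ) ^ u + ((j * (b : ℤ) ^ u : ℤ) : ℝ) := by
    push_cast
    ring
  rw [this]
  exact Dis.add_int h _

lemma wdis_add_int {b u N : ℕ} {E z : ℝ} (j : ℤ) : WDis b u N E (z + j) ↔ WDis b u N E z := by
  constructor
  · intro h
    have := WDis.add_int h (-j)
    push_cast at this
    rwa [add_neg_cancel_right] at this
  · exact fun h => h.add_int j

lemma count_win_one (S : Finset ℕ) (b : ℕ) (hS : ∀ q ∈ S, q.Prime ∧ ¬ q ∣ b) (hb : 2 ≤ b) :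
    ∃ C : ℝ, 0 ≤ C ∧ ∀ m ∈ Nat.factoredNumbers S, ∃ N₀ : ℕ, ∀ N : ℕ, N₀ ≤ N → ∀ u : ℕ,
      ∀ x ε : ℝ, 0 < ε → ε ≤ 1 → ∀ T : Finset ℕ, T ⊆ range m →
        (∀ a ∈ T, ¬ WDis b u N (ε * N) (x + a / (m : ℝ))) →
          (T.card : ℝ) ≤ C * ((1 + Real.log (1 / ε)) / ε) ^ 2 := by
  classical
  obtain ⟨C, hC0, hC⟩ := count_one S b hS hb
  refine ⟨C, hC0, fun m hm => ?_⟩
  obtain ⟨N₀, hN₀⟩ := hC m hm
  refine ⟨N₀, fun N hN u x ε hε hε1 T hT hbad => ?_⟩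
  have hm0 : m ≠ 0 := Nat.ne_zero_of_mem_factoredNumbers hm
  have hmpos : 0 < m := Nat.pos_of_ne_zero hm0
  have hcop : Nat.Coprime (b ^ u) m := by
    apply Nat.Coprime.pow_left
    rw [Nat.coprime_comm]
    apply Nat.Coprime.symm
    rw [Nat.coprime_iff_gcd_eq_one]
    by_contra hne
    obtain ⟨q, hq, hqd⟩ := Nat.exists_prime_and_dvd hne
    have h1 : q ∣ m := hqd.trans (Nat.gcd_dvd_right _ _)
    have h2 : q ∣ b := hqd.trans (Nat.gcd_dvd_left _ _)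
    have h3 : q ∈ S := (Nat.mem_factoredNumbers'.1 hm) q hq h1
    exact (hS q h3).2 h2
  set g : ℕ → ℕ := fun a => (b ^ u * a) % m with hg
  have hinj : Set.InjOn g T := by
    intro a ha c hc h
    have ha' := mem_range.1 (hT ha)
    have hc' := mem_range.1 (hT hc)
    have h1 : b ^ u * a ≡ b ^ u * c [MOD m] := h
    have h2 : a ≡ c [MOD m] := Nat.ModEq.cancel_left_of_coprime (by
      rw [Nat.gcd_comm]; exact hcop) h1
    exact Nat.ModEq.eq_of_lt_of_lt h2 ha' hc'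
  rw [← card_image_of_injOn hinj]
  refine hN₀ N hN (x * (b : ℝ) ^ u) ε hε hε1 (T.image g) ?_ ?_
  · intro a ha
    rw [mem_image] at ha
    obtain ⟨c, _, rfl⟩ := ha
    exact mem_range.2 (Nat.mod_lt _ hmpos)
  · intro a ha
    rw [mem_image] at ha
    obtain ⟨c, hc, rfl⟩ := ha
    intro hD
    apply hbad c hc
    rw [wdis_iff]
    have hmR : (m : ℝ) ≠ 0 := by exact_mod_cast hm0
    obtain ⟨k, hk⟩ : ∃ k : ℕ, b ^ u * c = g c + m * k :=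
      ⟨b ^ u * c / m, (Nat.mod_add_div (b ^ u * c) m).symm⟩
    have h2 : (b : ℝ) ^ u * c = g c + m * k := by exact_mod_cast hk
    have h1 : (x + c / (m : ℝ)) * (b : ℝ) ^ u =
        x * (b : ℝ) ^ u + (g c : ℝ) / m + ((k : ℤ) : ℝ) := by
      push_cast
      field_simp
      linear_combination h2
    rw [h1]
    exact Dis.add_int hD _

/-- **the number of bad translates is bounded, in every long window** -/
theorem count_win (S 𝓑 : Finset ℕ) (hS : ∀ q ∈ S, q.Prime)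
    (h𝓑 : ∀ b ∈ 𝓑, 2 ≤ b ∧ ∀ q ∈ S, ¬ q ∣ b) :
    ∃ C : ℝ, 0 ≤ C ∧ ∀ m ∈ Nat.factoredNumbers S, ∃ N₀ : ℕ, ∀ N : ℕ, N₀ ≤ N → ∀ u : ℕ,
      ∀ x ε : ℝ, 0 < ε → ε ≤ 1 → ∀ T : Finset ℕ, T ⊆ range m →
        (∀ a ∈ T, ¬ ∀ b ∈ 𝓑, WDis b u N (ε * N) (x + a / (m : ℝ))) →
          (T.card : ℝ) ≤ C * ((1 + Real.log (1 / ε)) / ε) ^ 2 := by
  classical
  have h1 : ∀ b : ℕ, ∃ C : ℝ, 0 ≤ C ∧ (b ∈ 𝓑 → ∀ m ∈ Nat.factoredNumbers S, ∃ N₀ : ℕ, ∀ N : ℕ,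
      N₀ ≤ N → ∀ u : ℕ, ∀ x ε : ℝ, 0 < ε → ε ≤ 1 → ∀ T : Finset ℕ, T ⊆ range m →
        (∀ a ∈ T, ¬ WDis b u N (ε * N) (x + a / (m : ℝ))) →
          (T.card : ℝ) ≤ C * ((1 + Real.log (1 / ε)) / ε) ^ 2) := by
    intro b
    by_cases hb : b ∈ 𝓑
    · obtain ⟨C, hC, h⟩ := count_win_one S b (fun q hq => ⟨hS q hq, (h𝓑 b hb).2 q hq⟩) (h𝓑 b hb).1
      exact ⟨C, hC, fun _ => h⟩
    · exact ⟨0, le_rfl, fun h => absurd h hb⟩
  choose C hC0 hC using h1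
  refine ⟨∑ b ∈ 𝓑, C b, sum_nonneg fun b _ => hC0 b, fun m hm => ?_⟩
  have h2 : ∀ b : ℕ, ∃ N₀ : ℕ, (b ∈ 𝓑 → ∀ N : ℕ,
      N₀ ≤ N → ∀ u : ℕ, ∀ x ε : ℝ, 0 < ε → ε ≤ 1 → ∀ T : Finset ℕ, T ⊆ range m →
        (∀ a ∈ T, ¬ WDis b u N (ε * N) (x + a / (m : ℝ))) →
          (T.card : ℝ) ≤ C b * ((1 + Real.log (1 / ε)) / ε) ^ 2) := by
    intro b
    by_cases hb : b ∈ 𝓑
    · obtain ⟨N₀, h⟩ := hC b hb m hm
      exact ⟨N₀, fun _ => h⟩
    · exact ⟨0, fun h => absurd h hb⟩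
  choose N₀ hN₀ using h2
  refine ⟨𝓑.sup N₀, fun N hN u x ε hε hε1 T hT hbad => ?_⟩
  have h3 : T ⊆ 𝓑.biUnion fun b => T.filter fun a : ℕ =>
      ¬ WDis b u N (ε * N) (x + a / (m : ℝ)) := by
    intro a ha
    have := hbad a ha
    push Not at this
    obtain ⟨b, hb, h⟩ := this
    rw [mem_biUnion]
    exact ⟨b, hb, mem_filter.2 ⟨ha, h⟩⟩
  have h4 : (T.card : ℝ) ≤ ∑ b ∈ 𝓑,
      ((T.filter fun a : ℕ => ¬ WDis b u N (ε * N) (x + a / (m : ℝ))).card : ℝ) := by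
    exact_mod_cast (card_le_card h3).trans card_biUnion_le
  refine h4.trans ?_
  rw [sum_mul]
  refine sum_le_sum fun b hb => ?_
  exact hN₀ b hb N ((Finset.le_sup hb).trans hN) u x ε hε hε1 _ ((filter_subset _ _).trans hT)
    fun a ha => (mem_filter.1 ha).2

/-- the same for a finite set of classes -/
theorem count_classes (S 𝓑 : Finset ℕ) (hS : ∀ q ∈ S, q.Prime)
    (h𝓑 : ∀ b ∈ 𝓑, 2 ≤ b ∧ ∀ q ∈ S, ¬ q ∣ b) :
    ∃ C : ℝ, 0 ≤ C ∧ ∀ T : Finset ℚ, (∀ r ∈ T, 0 ≤ r ∧ r < 1 ∧ r.den ∈ Nat.factoredNumbers S) →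
      ∃ N₀ : ℕ, ∀ N : ℕ, N₀ ≤ N → ∀ u : ℕ, ∀ x ε : ℝ, 0 < ε → ε ≤ 1 → ∀ T' : Finset ℚ, T' ⊆ T →
        (∀ r ∈ T', ¬ ∀ b ∈ 𝓑, WDis b u N (ε * N) (x + r)) →
          (T'.card : ℝ) ≤ C * ((1 + Real.log (1 / ε)) / ε) ^ 2 := by
  classical
  obtain ⟨C, hC0, hC⟩ := count_win S 𝓑 hS h𝓑
  refine ⟨C, hC0, fun T hT => ?_⟩
  set m := ∏ r ∈ T, r.den with hm
  have hmS := prod_den S T fun r hr => (hT r hr).2.2
  have hm0 : m ≠ 0 := Nat.ne_zero_of_mem_factoredNumbers hmS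
  have hmQ : (0 : ℚ) < m := by exact_mod_cast Nat.pos_of_ne_zero hm0
  obtain ⟨N₀, hN₀⟩ := hC m hmS
  have hg : ∀ r : ℚ, r ∈ T → ∃ a : ℕ, (a : ℚ) = r * m := by
    intro r hr
    obtain ⟨c, hc⟩ : r.den ∣ m := Finset.dvd_prod_of_mem _ hr
    have h3 : 0 ≤ r := (hT r hr).1
    refine ⟨r.num.toNat * c, ?_⟩
    have h4 : ((r.num.toNat : ℕ) : ℚ) = r.num := by
      have : ((r.num.toNat : ℕ) : ℤ) = r.num := Int.toNat_of_nonneg (Rat.num_nonneg.2 h3)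
      exact_mod_cast this
    have h5 : r * r.den = r.num := Rat.mul_den_eq_num r
    rw [hc]
    push_cast
    rw [h4, ← h5]
    ring
  choose! g hg using hg
  refine ⟨N₀, fun N hN u x ε hε hε1 T' hT' hbad => ?_⟩
  have hinj : Set.InjOn g T' := by
    intro r hr s hs h
    have h3 := hg r (hT' hr)
    have h4 := hg s (hT' hs)
    rw [h] at h3
    have h5 : s * (m : ℚ) = r * m := by rw [← h4, ← h3]
    exact (mul_right_cancel₀ hmQ.ne' h5).symm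
  rw [← card_image_of_injOn hinj]
  refine hN₀ N hN u x ε hε hε1 (T'.image g) ?_ ?_
  · intro a ha
    rw [mem_image] at ha
    obtain ⟨r, hr, rfl⟩ := ha
    rw [mem_range]
    have h4 : ((g r : ℕ) : ℚ) < m := by
      rw [hg r (hT' hr)]
      have := (hT r (hT' hr)).2.1
      nlinarith
    exact_mod_cast h4
  · intro a ha
    rw [mem_image] at ha
    obtain ⟨r, hr, rfl⟩ := ha
    have h5 : ((g r : ℕ) : ℝ) / (m : ℝ) = (r : ℝ) := by
      have h6 : ((g r : ℕ) : ℚ) / (m : ℚ) = r := by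
        rw [hg r (hT' hr)]
        field_simp
      have h7 := congrArg (Rat.cast : ℚ → ℝ) h6
      push_cast at h7
      exact h7
    rw [h5]
    exact hbad r hr

end Pool.Agent.N710.LD
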